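import Pool.Agent.helper5.DH.Spec

/-!
# dh:CON: the line field is almost constant near `0` at all scales (helper39)
-/

set_option autoImplicit false

open Complex Metric Set Filter Topology MeasureTheory
open Pool.Agent.helper98.ILF Pool.Agent.helper16.Multibrot
open HY (UD T S hd UN RM VV SG Orb fz)

noncomputable section

namespace DH

/-- unimodular quotients. -/
theorem CON_uni {a : ℂ} (ha : a ≠ 0) : ‖(starRingEnd ℂ) a / a‖ = 1 := by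
  rw [norm_div, RCLike.norm_conj]
  exact div_self (norm_ne_zero_iff.mpr ha)

/-- measurable bounded composition is integrable on a ball of the disc. -/
theorem CON_intOn (μ X : ℂ → ℂ) (e : ℂ) (s : ℝ) (hμ : Measurable μ) (hb : ∀ z, ‖μ z‖ ≤ 1)
    (he : ‖e‖ ≤ 1) (hX : DifferentiableOn ℂ X UD) (hs : s ≤ 1) :
    IntegrableOn (fun y => ‖μ (X y) - e‖) (ball (0 : ℂ) s) := by
  have hXc : ContinuousOn X (ball (0 : ℂ) s) :=
    (hX.mono (ball_subset_ball hs)).continuousOn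
  have hXm : AEMeasurable X (volume.restrict (ball (0 : ℂ) s)) :=
    hXc.aemeasurable measurableSet_ball
  have hm : AEMeasurable (fun y => ‖μ (X y) - e‖) (volume.restrict (ball (0 : ℂ) s)) :=
    ((hμ.comp_aemeasurable hXm).sub_const e).norm
  have : IsFiniteMeasure (volume.restrict (ball (0 : ℂ) s)) :=
    ⟨by rw [Measure.restrict_apply_univ]; exact measure_ball_lt_top⟩
  refine Integrable.of_bound hm.aestronglyMeasurable 2 ?_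
  · refine Filter.Eventually.of_forall fun y => ?_
    rw [Real.norm_eq_abs, abs_of_nonneg (norm_nonneg _)]
    calc ‖μ (X y) - e‖ ≤ ‖μ (X y)‖ + ‖e‖ := norm_sub_le _ _
      _ ≤ 1 + 1 := add_le_add (hb _) he
      _ = 2 := by norm_num

/-- measurable bounded functions are integrable on bounded sets. -/
theorem CON_intOn' (μ : ℂ → ℂ) (e : ℂ) (A : Set ℂ) (hμ : Measurable μ) (hb : ∀ z, ‖μ z‖ ≤ 1)
    (he : ‖e‖ ≤ 1) (hA : volume A ≠ ⊤) :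
    IntegrableOn (fun y => ‖μ y - e‖) A := by
  have hm : Measurable (fun y => ‖μ y - e‖) := (hμ.sub_const e).norm
  refine Measure.integrableOn_of_bounded (M := 2) hA hm.aestronglyMeasurable ?_
  · refine Filter.Eventually.of_forall fun y => ?_
    rw [Real.norm_eq_abs, abs_of_nonneg (norm_nonneg _)]
    calc ‖μ y - e‖ ≤ ‖μ y‖ + ‖e‖ := norm_sub_le _ _
      _ ≤ 1 + 1 := add_le_add (hb _) he
      _ = 2 := by norm_num

/-- the volume of a disc. -/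
theorem CON_vol (s : ℝ) (hs : 0 ≤ s) : (volume (ball (0 : ℂ) s)).toReal ≤ 4 * s ^ 2 := by
  rw [Complex.volume_ball, ENNReal.toReal_mul, ENNReal.toReal_pow, ENNReal.toReal_ofReal hs]
  have : (↑(NNReal.pi) : ENNReal).toReal = Real.pi := by simp
  rw [this]
  nlinarith [Real.pi_lt_four, sq_nonneg s]

/-- the pointwise comparison. -/
theorem CON_pt (m₁ m₀ M a b a₀ b₀ e : ℂ) (A y : ℝ) (h : m₁ * a = M * b) (ha : ‖a‖ = 1) (hb : ‖b‖ = 1)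
    (hm₀ : ‖m₀‖ = 1) (he : ‖e‖ = 1) (heq : e * b₀ = m₀ * a₀) (hA : ‖a - a₀‖ ≤ A * y) (hB : ‖b - b₀‖ ≤ A * y) :
    ‖M - e‖ ≤ ‖m₁ - m₀‖ + 2 * A * y := by
  have h1 : (M - e) * b = (m₁ - m₀) * a + m₀ * (a - a₀) + e * (b₀ - b) := by
    linear_combination (-1 : ℂ) * h - heq
  have h2 : ‖M - e‖ = ‖(M - e) * b‖ := by rw [norm_mul, hb, mul_one]
  rw [h2, h1]
  calc ‖(m₁ - m₀) * a + m₀ * (a - a₀) + e * (b₀ - b)‖
      ≤ ‖(m₁ - m₀) * a + m₀ * (a - a₀)‖ + ‖e * (b₀ - b)‖ := norm_add_le _ _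
    _ ≤ ‖(m₁ - m₀) * a‖ + ‖m₀ * (a - a₀)‖ + ‖e * (b₀ - b)‖ := by gcongr; exact norm_add_le _ _
    _ = ‖m₁ - m₀‖ + ‖a - a₀‖ + ‖b - b₀‖ := by
        rw [norm_mul, norm_mul, norm_mul, ha, hm₀, he, norm_sub_rev b₀ b]; ring
    _ ≤ ‖m₁ - m₀‖ + A * y + A * y := by gcongr
    _ = ‖m₁ - m₀‖ + 2 * A * y := by ring

/-- the estimate at one level. -/
theorem CON_level (C A C₁ C₃ : ℝ) (hC : 1 ≤ C) (hA : 1 ≤ A) (_hC₁ : 1 ≤ C₁) (hC₃ : 1 ≤ C₃)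
    (hCVX : ∀ (X : ℂ → ℂ) (h : ℂ → ℝ) (s : ℝ), DifferentiableOn ℂ X UD → InjOn X UD →
      Measurable h → (∀ z, 0 ≤ h z ∧ h z ≤ 2) → 0 < s → s ≤ 1 / 2 →
      (∫ y in ball (0 : ℂ) s, h (X y)) * ‖deriv X 0‖ ^ 2 ≤ C * ∫ z in X '' ball (0 : ℂ) s, h z ∧
      ∫ z in X '' ball (0 : ℂ) s, h z ≤ C * ‖deriv X 0‖ ^ 2 * ∫ y in ball (0 : ℂ) s, h (X y))
    (hARG : ∀ (X : ℂ → ℂ), DifferentiableOn ℂ X UD → InjOn X UD → ∀ y : ℂ, ‖y‖ ≤ 1 / 2 →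
      ‖(starRingEnd ℂ) (deriv X y) / deriv X y - (starRingEnd ℂ) (deriv X 0) / deriv X 0‖ ≤ A * ‖y‖)
    (hKO0 : V3.KO0_stmt)
    (hKO1 : ∀ (G : ℂ → ℂ) (a : ℂ) (r : ℝ), 0 < r → DifferentiableOn ℂ G (ball a r) →
      InjOn G (ball a r) → ball (G a) (r * ‖deriv G a‖ / C₁) ⊆ G '' ball a r)
    (hKO3 : ∀ (G : ℂ → ℂ) (a : ℂ) (r : ℝ), 0 < r →
      DifferentiableOn ℂ G (ball a r) → InjOn G (ball a r) →
      ∀ x ∈ ball a ((1 - 1 / 4) * r), ‖G x - G a‖ ≤ C₃ * ‖x - a‖ * ‖deriv G a‖)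
    (μ X Y : ℂ → ℂ) (x : ℂ) (s ε₁ δ₁ K₂ : ℝ) (hμ : Measurable μ) (hb : ∀ z, ‖μ z‖ ≤ 1) (hx : ‖μ x‖ = 1)
    (hXd : DifferentiableOn ℂ X UD) (hXi : InjOn X UD) (hYd : DifferentiableOn ℂ Y UD) (hYi : InjOn Y UD)
    (hrel : ∀ᵐ y : ℂ, y ∈ UD → μ (X y) * (starRingEnd ℂ) (deriv X y) / deriv X y =
      μ (Y y) * (starRingEnd ℂ) (deriv Y y) / deriv Y y)
    (hs : 0 < s) (hs2 : s ≤ 1 / 2) (_hε₁ : 0 ≤ ε₁)
    (hD : ∀ (p : ℂ) (s : ℝ), 0 < s → s < δ₁ → ‖x - p‖ ≤ K₂ * s → ∫ z in ball p s, ‖μ z - μ x‖ ≤ ε₁ * s ^ 2)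
    (hK₂ : 0 < K₂) (hXx : ‖X 0 - x‖ ≤ K₂ * ‖deriv X 0‖) (hsm : C₃ * ‖deriv X 0‖ < δ₁) (hY0 : Y 0 = 0) :
    ∃ e : ℂ, ‖e‖ = 1 ∧ ∫ z in ball (0 : ℂ) (s * ‖deriv Y 0‖ / C₁), ‖μ z - e‖ ≤
      C * ‖deriv Y 0‖ ^ 2 * (C * C₃ ^ 2 * ε₁ + 8 * A * s ^ 3) := by
  have h0 : (0 : ℂ) ∈ UD := by simp [HY.UD]
  have hUo : IsOpen UD := isOpen_ball
  have hX0 : deriv X 0 ≠ 0 := hKO0 X UD hUo hXd hXi 0 h0
  have hYd0 : deriv Y 0 ≠ 0 := hKO0 Y UD hUo hYd hYi 0 h0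
  set κ : ℝ := ‖deriv X 0‖ with hκ
  have hκ0 : 0 < κ := norm_pos_iff.mpr hX0
  -- the constant
  set a₀ : ℂ := (starRingEnd ℂ) (deriv X 0) / deriv X 0 with ha₀
  set b₀ : ℂ := (starRingEnd ℂ) (deriv Y 0) / deriv Y 0 with hb₀
  have ha₀n : ‖a₀‖ = 1 := CON_uni hX0
  have hb₀n : ‖b₀‖ = 1 := CON_uni hYd0
  have hb₀z : b₀ ≠ 0 := by
    intro h; rw [h, norm_zero] at hb₀n; exact zero_ne_one hb₀n
  set e : ℂ := μ x * a₀ / b₀ with he
  have hen : ‖e‖ = 1 := by rw [he, norm_div, norm_mul, hx, ha₀n, hb₀n]; norm_num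
  have heb : e * b₀ = μ x * a₀ := by rw [he]; field_simp
  refine ⟨e, hen, ?_⟩
  have hUs : ball (0 : ℂ) s ⊆ UD := ball_subset_ball (by linarith)
  -- step 1: pointwise
  have hpt : ∀ᵐ y : ℂ, y ∈ ball (0 : ℂ) s → ‖μ (Y y) - e‖ ≤ ‖μ (X y) - μ x‖ + 2 * A * s := by
    filter_upwards [hrel] with y hy hys
    have hyU : y ∈ UD := hUs hys
    have hy1 : ‖y‖ < s := by simpa using hys
    have h := hy hyU
    have hXy : deriv X y ≠ 0 := hKO0 X UD hUo hXd hXi y hyU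
    have hYy : deriv Y y ≠ 0 := hKO0 Y UD hUo hYd hYi y hyU
    have h' : μ (X y) * ((starRingEnd ℂ) (deriv X y) / deriv X y) =
        μ (Y y) * ((starRingEnd ℂ) (deriv Y y) / deriv Y y) := by
      rw [mul_div_assoc, mul_div_assoc] at h; exact h
    have hyh : ‖y‖ ≤ 1 / 2 := by linarith
    have := CON_pt (μ (X y)) (μ x) (μ (Y y)) _ _ a₀ b₀ e A ‖y‖ h' (CON_uni hXy) (CON_uni hYy) hx hen heb
      (hARG X hXd hXi y hyh) (hARG Y hYd hYi y hyh)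
    have h2 : 2 * A * ‖y‖ ≤ 2 * A * s := by gcongr
    linarith
  -- step 2: integral of μ ∘ X
  have hhX : Measurable (fun z => ‖μ z - μ x‖) := (hμ.sub_const _).norm
  have hhX2 : ∀ z, 0 ≤ ‖μ z - μ x‖ ∧ ‖μ z - μ x‖ ≤ 2 := fun z => ⟨norm_nonneg _, by
    calc ‖μ z - μ x‖ ≤ ‖μ z‖ + ‖μ x‖ := norm_sub_le _ _
      _ ≤ 1 + 1 := add_le_add (hb _) (hb _)
      _ = 2 := by norm_num⟩
  have hI1 := (hCVX X (fun z => ‖μ z - μ x‖) s hXd hXi hhX hhX2 hs hs2).1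
  have himg : X '' ball (0 : ℂ) s ⊆ ball (X 0) (C₃ * κ) := by
    rintro _ ⟨y, hy, rfl⟩
    have hy1 : ‖y‖ < s := by simpa using hy
    have hy2 : y ∈ ball (0 : ℂ) ((1 - 1 / 4) * 1) := by
      rw [mem_ball_zero_iff]; linarith
    have := hKO3 X 0 1 one_pos hXd hXi y hy2
    rw [sub_zero] at this
    rw [mem_ball, dist_eq_norm]
    calc ‖X y - X 0‖ ≤ C₃ * ‖y‖ * κ := this
      _ < C₃ * 1 * κ := by
        have : ‖y‖ < 1 := by linarith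
        have hC3 : 0 < C₃ := by linarith
        gcongr
      _ = C₃ * κ := by ring
  have hI2 : ∫ z in X '' ball (0 : ℂ) s, ‖μ z - μ x‖ ≤ ∫ z in ball (X 0) (C₃ * κ), ‖μ z - μ x‖ := by
    refine setIntegral_mono_set (CON_intOn' μ (μ x) _ hμ hb (hb x) measure_ball_lt_top.ne) ?_ ?_
    · exact Filter.Eventually.of_forall fun z => norm_nonneg _
    · exact himg.eventuallyLE
  have hC3p : 0 < C₃ := by linarith
  have hI3 : ∫ z in ball (X 0) (C₃ * κ), ‖μ z - μ x‖ ≤ ε₁ * (C₃ * κ) ^ 2 := by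
    refine hD (X 0) (C₃ * κ) (by positivity) hsm ?_
    rw [norm_sub_rev]
    calc ‖X 0 - x‖ ≤ K₂ * κ := hXx
      _ = K₂ * (1 * κ) := by ring
      _ ≤ K₂ * (C₃ * κ) := by gcongr
  have hI4 : ∫ y in ball (0 : ℂ) s, ‖μ (X y) - μ x‖ ≤ C * C₃ ^ 2 * ε₁ := by
    have h1 : (∫ y in ball (0 : ℂ) s, ‖μ (X y) - μ x‖) * κ ^ 2 ≤ (C * C₃ ^ 2 * ε₁) * κ ^ 2 := by
      calc (∫ y in ball (0 : ℂ) s, ‖μ (X y) - μ x‖) * κ ^ 2
          ≤ C * ∫ z in X '' ball (0 : ℂ) s, ‖μ z - μ x‖ := hI1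
        _ ≤ C * (ε₁ * (C₃ * κ) ^ 2) := by gcongr; exact hI2.trans hI3
        _ = (C * C₃ ^ 2 * ε₁) * κ ^ 2 := by ring
    exact le_of_mul_le_mul_right h1 (by positivity)
  -- step 3: integral of μ ∘ Y
  have hI5 : ∫ y in ball (0 : ℂ) s, ‖μ (Y y) - e‖ ≤ C * C₃ ^ 2 * ε₁ + 8 * A * s ^ 3 := by
    have hint1 : IntegrableOn (fun y => ‖μ (Y y) - e‖) (ball (0 : ℂ) s) :=
      CON_intOn μ Y e s hμ hb hen.le hYd (by linarith)
    have hint2 : IntegrableOn (fun y => ‖μ (X y) - μ x‖) (ball (0 : ℂ) s) :=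
      CON_intOn μ X (μ x) s hμ hb (hb x) hXd (by linarith)
    have hint3 : IntegrableOn (fun _ : ℂ => 2 * A * s) (ball (0 : ℂ) s) :=
      integrableOn_const measure_ball_lt_top.ne
    calc ∫ y in ball (0 : ℂ) s, ‖μ (Y y) - e‖
        ≤ ∫ y in ball (0 : ℂ) s, (‖μ (X y) - μ x‖ + 2 * A * s) := by
          refine setIntegral_mono_on_ae hint1 (hint2.add hint3) measurableSet_ball ?_
          filter_upwards [hpt] with y hy hys using hy hys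
      _ = (∫ y in ball (0 : ℂ) s, ‖μ (X y) - μ x‖) + ∫ y in ball (0 : ℂ) s, (2 * A * s) :=
          integral_add hint2 hint3
      _ ≤ C * C₃ ^ 2 * ε₁ + 8 * A * s ^ 3 := by
          refine add_le_add hI4 ?_
          rw [setIntegral_const, smul_eq_mul]
          have hv := CON_vol s hs.le
          have hv' : (volume : Measure ℂ).real (ball (0 : ℂ) s) ≤ 4 * s ^ 2 := hv
          calc (volume : Measure ℂ).real (ball (0 : ℂ) s) * (2 * A * s) ≤ 4 * s ^ 2 * (2 * A * s) := by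
                gcongr
            _ = 8 * A * s ^ 3 := by ring
  -- step 4: change of variables by Y
  have hhY : Measurable (fun z => ‖μ z - e‖) := (hμ.sub_const _).norm
  have hhY2 : ∀ z, 0 ≤ ‖μ z - e‖ ∧ ‖μ z - e‖ ≤ 2 := fun z => ⟨norm_nonneg _, by
    calc ‖μ z - e‖ ≤ ‖μ z‖ + ‖e‖ := norm_sub_le _ _
      _ ≤ 1 + 1 := add_le_add (hb _) hen.le
      _ = 2 := by norm_num⟩
  have hI6 := (hCVX Y (fun z => ‖μ z - e‖) s hYd hYi hhY hhY2 hs hs2).2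
  have hsub : ball (0 : ℂ) (s * ‖deriv Y 0‖ / C₁) ⊆ Y '' ball (0 : ℂ) s := by
    have := hKO1 Y 0 s hs (hYd.mono hUs) (hYi.mono hUs)
    rw [hY0] at this
    exact this
  have himY : Y '' ball (0 : ℂ) s ⊆ ball (Y 0) (C₃ * ‖deriv Y 0‖) := by
    rintro _ ⟨y, hy, rfl⟩
    have hy1 : ‖y‖ < s := by simpa using hy
    have hy2 : y ∈ ball (0 : ℂ) ((1 - 1 / 4) * 1) := by
      rw [mem_ball_zero_iff]; linarith
    have := hKO3 Y 0 1 one_pos hYd hYi y hy2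
    rw [sub_zero] at this
    rw [mem_ball, dist_eq_norm]
    have hYp : 0 < ‖deriv Y 0‖ := norm_pos_iff.mpr hYd0
    calc ‖Y y - Y 0‖ ≤ C₃ * ‖y‖ * ‖deriv Y 0‖ := this
      _ < C₃ * 1 * ‖deriv Y 0‖ := by
        have : ‖y‖ < 1 := by linarith
        gcongr
      _ = C₃ * ‖deriv Y 0‖ := by ring
  have hfin : volume (Y '' ball (0 : ℂ) s) ≠ ⊤ :=
    ((measure_mono himY).trans_lt measure_ball_lt_top).ne
  calc ∫ z in ball (0 : ℂ) (s * ‖deriv Y 0‖ / C₁), ‖μ z - e‖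
      ≤ ∫ z in Y '' ball (0 : ℂ) s, ‖μ z - e‖ := by
        refine setIntegral_mono_set (CON_intOn' μ e _ hμ hb hen.le hfin) ?_ ?_
        · exact Filter.Eventually.of_forall fun z => norm_nonneg _
        · exact hsub.eventuallyLE
    _ ≤ C * ‖deriv Y 0‖ ^ 2 * ∫ y in ball (0 : ℂ) s, ‖μ (Y y) - e‖ := hI6
    _ ≤ C * ‖deriv Y 0‖ ^ 2 * (C * C₃ ^ 2 * ε₁ + 8 * A * s ^ 3) := by gcongr

/-- CON: the line field is almost constant near `0` at all scales. -/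
theorem CON (hCVX : CVX_stmt) (hARG : ARG_stmt) (hNLI : NLI_stmt) (hINR : INR_stmt) (hSCL : NZ.SCL_stmt)
    (hKO0 : V3.KO0_stmt) (hKO1 : V3.KO1_stmt) (hKO3 : V3.KO3_stmt) : CON_stmt := by
  obtain ⟨C, hC, hCVX⟩ := hCVX
  obtain ⟨A, hA, hARG⟩ := hARG
  obtain ⟨C₁, hC₁, hKO1⟩ := hKO1
  obtain ⟨C₃, hC₃, hKO3⟩ := hKO3 (1 / 4) (by norm_num) (by norm_num)
  intro n c Φ b μ x c₂ K₂ htow hint hμ hb hx hinv hD hc₂ hc₂' hK₂ hB
  obtain ⟨κ, hκ0, hκ1, hSCL⟩ := hSCL n htow.hn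
  have hCp : 0 < C := by linarith
  have hAp : 0 < A := by linarith
  have hC₁p : 0 < C₁ := by linarith
  have hC₃p : 0 < C₃ := by linarith
  have hUo : IsOpen UD := isOpen_ball
  have h0 : (0 : ℂ) ∈ UD := by simp [HY.UD]
  intro K ε hK hε
  -- the factor
  set Q : ℝ := C * (C₁ * K / κ) ^ 2 with hQ
  have hQp : 0 < Q := by positivity
  -- choice of s
  set s : ℝ := min (1 / 2) (ε / (2 * (Q * (8 * A)))) with hs
  have hsp : 0 < s := by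
    rw [hs]; exact lt_min (by norm_num) (by positivity)
  have hs2 : s ≤ 1 / 2 := min_le_left _ _
  have hs3 : Q * (8 * A * s) ≤ ε / 2 := by
    have h1 : s ≤ ε / (2 * (Q * (8 * A))) := min_le_right _ _
    have h2 : Q * (8 * A) * s ≤ Q * (8 * A) * (ε / (2 * (Q * (8 * A)))) := by gcongr
    have h3 : Q * (8 * A) * (ε / (2 * (Q * (8 * A)))) = ε / 2 := by field_simp
    calc Q * (8 * A * s) = Q * (8 * A) * s := by ring
      _ ≤ ε / 2 := by rw [← h3]; exact h2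
  -- choice of ε₁
  set ε₁ : ℝ := ε * s ^ 2 / (2 * (Q * (C * C₃ ^ 2))) with hε₁
  have hε₁p : 0 < ε₁ := by positivity
  have hε₁' : Q * (C * C₃ ^ 2 * ε₁ / s ^ 2) = ε / 2 := by
    rw [hε₁]; field_simp
  obtain ⟨δ₁, hδ₁, hD1⟩ := hD K₂ ε₁ hε₁p
  obtain ⟨k₀, hk₀⟩ := hINR n c htow.hn htow.hc hint (δ₁ / (C₃ * C₁)) (by positivity)
  obtain ⟨ρ₀, hρ₀, hρ⟩ := hSCL c htow.hc hint Φ htow.rm k₀
  refine ⟨ρ₀ * (s * c₂) / (C₁ * K), by positivity, ?_⟩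
  intro σ hσ hσ'
  set ρ : ℝ := C₁ * K * σ / (s * c₂) with hρd
  have hρp : 0 < ρ := by positivity
  have hρl : ρ < ρ₀ := by
    rw [hρd, div_lt_iff₀ (by positivity)]
    rw [lt_div_iff₀ (by positivity)] at hσ'
    linarith
  obtain ⟨k, hk, hkl, hku⟩ := hρ ρ hρp hρl
  obtain ⟨t, X, hXd, hXi, hXf, hXV, hXx⟩ := hB k
  set Y : ℂ → ℂ := fun y => Φ k (c₂ * y) with hY
  have hmem : ∀ y ∈ UD, (c₂ : ℂ) * y ∈ UD := by
    intro y hy
    have hy1 : ‖y‖ < 1 := by simpa [HY.UD] using hy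
    simp only [HY.UD, mem_ball_zero_iff, norm_mul, Complex.norm_real, Real.norm_eq_abs, abs_of_pos hc₂]
    nlinarith [norm_nonneg y]
  have hYd : DifferentiableOn ℂ Y UD := by
    refine (htow.rm k).dif.comp ?_ hmem
    exact (differentiable_id.const_mul (c₂ : ℂ)).differentiableOn
  have hYi : InjOn Y UD := by
    intro y hy y' hy' h
    have := (htow.rm k).inj (hmem y hy) (hmem y' hy') h
    exact mul_left_cancel₀ (by exact_mod_cast hc₂.ne') this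
  have hY0 : Y 0 = 0 := by
    show Φ k (c₂ * 0) = 0
    rw [mul_zero]; exact (htow.rm k).val
  have hYder : deriv Y 0 = deriv (Φ k) 0 * c₂ := by
    have h1 : DifferentiableAt ℂ (Φ k) ((c₂ : ℂ) * 0) := by
      rw [mul_zero]; exact (htow.rm k).dif.differentiableAt (hUo.mem_nhds h0)
    have h2 : HasDerivAt (fun y : ℂ => (c₂ : ℂ) * y) (c₂ : ℂ) 0 := by
      simpa using (hasDerivAt_id (0 : ℂ)).const_mul (c₂ : ℂ)
    have h3 := h1.hasDerivAt.comp (0 : ℂ) h2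
    have h4 := h3.deriv
    rw [mul_zero] at h4
    exact h4
  have hYn : ‖deriv Y 0‖ = c₂ * ‖deriv (Φ k) 0‖ := by
    rw [hYder, norm_mul, Complex.norm_real, Real.norm_eq_abs, abs_of_pos hc₂, mul_comm]
  -- relation
  have hrel : ∀ᵐ y : ℂ, y ∈ UD → μ (X y) * (starRingEnd ℂ) (deriv X y) / deriv X y =
      μ (Y y) * (starRingEnd ℂ) (deriv Y y) / deriv Y y := by
    have hN := hNLI n c μ htow.hn hμ hinv t X hXd hXi
    filter_upwards [hN] with y hy hyU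
    have h1 := hy hyU
    have h2 : (fun x => (fz n c)^[t] (X x)) =ᶠ[𝓝 y] Y := by
      filter_upwards [hUo.mem_nhds hyU] with z hz using hXf z hz
    rw [h2.deriv_eq, hXf y hyU] at h1
    exact h1
  -- smallness of X' 0
  have hXsm : C₃ * ‖deriv X 0‖ < δ₁ := by
    by_contra hcon
    push Not at hcon
    have h1 : ball (X 0) (1 * ‖deriv X 0‖ / C₁) ⊆ X '' ball 0 1 := hKO1 X 0 1 one_pos hXd hXi
    refine hk₀ (k + t) (by omega) (X 0) ?_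
    intro z hz
    have h2 : z ∈ ball (X 0) (1 * ‖deriv X 0‖ / C₁) := by
      refine ball_subset_ball ?_ hz
      rw [one_mul, div_le_div_iff₀ (by positivity) hC₁p]
      calc δ₁ * C₁ ≤ (C₃ * ‖deriv X 0‖) * C₁ := by gcongr
        _ = ‖deriv X 0‖ * (C₃ * C₁) := by ring
    obtain ⟨y, hy, rfl⟩ := h1 h2
    exact hXV y hy
  obtain ⟨e, he, hI⟩ := CON_level C A C₁ C₃ hC hA hC₁ hC₃ hCVX hARG hKO0 hKO1
    (fun G a r hr hd hi x hx => ((hKO3 G a r hr hd hi).2 x hx).2.2.1)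
    μ X Y x s ε₁ δ₁ K₂ hμ hb hx hXd hXi hYd hYi hrel hsp hs2 hε₁p.le hD1 hK₂ hXx hXsm hY0
  refine ⟨e, he, ?_⟩
  have hR : 0 ≤ ‖deriv (Φ k) 0‖ := norm_nonneg _
  have hsubset : ball (0 : ℂ) (K * σ) ⊆ ball (0 : ℂ) (s * ‖deriv Y 0‖ / C₁) := by
    refine ball_subset_ball ?_
    rw [hYn, le_div_iff₀ hC₁p]
    have h1 : ρ * (s * c₂) ≤ ‖deriv (Φ k) 0‖ * (s * c₂) := by gcongr
    have h2 : ρ * (s * c₂) = C₁ * K * σ := by rw [hρd]; field_simp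
    calc K * σ * C₁ = ρ * (s * c₂) := by rw [h2]; ring
      _ ≤ ‖deriv (Φ k) 0‖ * (s * c₂) := h1
      _ = s * (c₂ * ‖deriv (Φ k) 0‖) := by ring
  calc ∫ z in ball (0 : ℂ) (K * σ), ‖μ z - e‖
      ≤ ∫ z in ball (0 : ℂ) (s * ‖deriv Y 0‖ / C₁), ‖μ z - e‖ := by
        refine setIntegral_mono_set (CON_intOn' μ e _ hμ hb he.le measure_ball_lt_top.ne) ?_ ?_
        · exact Filter.Eventually.of_forall fun z => norm_nonneg _
        · exact hsubset.eventuallyLE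
    _ ≤ C * ‖deriv Y 0‖ ^ 2 * (C * C₃ ^ 2 * ε₁ + 8 * A * s ^ 3) := hI
    _ ≤ C * (c₂ * (ρ / κ)) ^ 2 * (C * C₃ ^ 2 * ε₁ + 8 * A * s ^ 3) := by
        rw [hYn]; gcongr
    _ = (Q * (C * C₃ ^ 2 * ε₁ / s ^ 2) + Q * (8 * A * s)) * σ ^ 2 := by
        rw [hρd, hQ]; field_simp
    _ ≤ (ε / 2 + ε / 2) * σ ^ 2 := by
        gcongr
        exact hε₁'.le
    _ = ε * σ ^ 2 := by ring

end DH
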